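import Mathlib
import Pool.Agent.H.MP_70eb0a_al.B

set_option autoImplicit false

namespace Pool.Agent.Results.MP_70eb0a_al.Counter

open H.MP_70eb0a_al

theorem result : ∃ (G : Type) (_ : Group G) (_ : Finite G) (p : ℕ), p.Prime ∧
    CondN G p ∧ ¬ Semiperfect (MonoidAlgebra (Zp p) G) :=
  ⟨QuaternionGroup 3, inferInstance, inferInstance, 2, Nat.prime_two, condN, not_semi⟩

end Pool.Agent.Results.MP_70eb0a_al.Counter
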